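import Pool.Agent.MinimalInterpolation.Disc

open Filter Topology
open Pool.Agent.MinimalInterpolation

namespace Pool.Agent.Results.MP_c109b8_an.SingularMinimal

/-- **Negative answer to Q2, hence to Q1, of MP_c109b8_an.** For `f(w) = exp (-(1+w)/(1-w))` there
is a Blaschke sequence `(z_n)` with `f(z_n) → 0` for which `f` itself is the only interpolant of
smallest norm, although `f` is not a constant multiple of a Blaschke product. -/
theorem result :
    ∃ z : ℕ → ℂ, IsBlaschkeSeq z ∧ Tendsto (fun n => singularInner (z n)) atTop (𝓝 0) ∧
      IsMinimalInterpolant singularInner z singularInner ∧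
      (∀ g : ℂ → ℂ, IsMinimalInterpolant singularInner z g → Set.EqOn g singularInner Disc) ∧
      ¬ ∃ (c : ℂ) (B : ℂ → ℂ), IsBlaschkeProduct B ∧
        Set.EqOn singularInner (fun w => c * B w) Disc :=
  Pool.Agent.MinimalInterpolation.main

end Pool.Agent.Results.MP_c109b8_an.SingularMinimal
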